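import Mathlib

/-!
# Geodesic cycles with respect to edge lengths

For a functional `φ` on edges with values in `ZMod 2`, every closed walk with `φ = 1` dominates (in length)
a geodesic cycle with `φ = 1`.
-/

set_option autoImplicit false

namespace Pool.Agent.R4.Geo

open SimpleGraph

variable {V : Type} {G : SimpleGraph V}

/-- The sum of `g` over the edges of a walk. -/
def wsum {M : Type} [AddCommMonoid M] (g : Sym2 V → M) {u v : V} (p : G.Walk u v) : M :=
  (p.edges.map g).sum

section wsum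
variable {M : Type} [AddCommMonoid M] (g : Sym2 V → M)

@[simp] theorem wsum_nil {u : V} : wsum g (Walk.nil : G.Walk u u) = 0 := by simp [wsum]

@[simp] theorem wsum_cons {u v w : V} (h : G.Adj u v) (p : G.Walk v w) :
    wsum g (Walk.cons h p) = g s(u, v) + wsum g p := by simp [wsum]

@[simp] theorem wsum_append {u v w : V} (p : G.Walk u v) (q : G.Walk v w) :
    wsum g (p.append q) = wsum g p + wsum g q := by simp [wsum]

@[simp] theorem wsum_reverse {u v : V} (p : G.Walk u v) :
    wsum g p.reverse = wsum g p := by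
  simp [wsum, List.map_reverse, List.sum_reverse]

end wsum

/-- A list of edges (of a cycle) is geodesic: two complementary arcs are never both longer than another
walk between their common ends. -/
def GeoL (G : SimpleGraph V) (ℓ : Sym2 V → ℝ) (L : List (Sym2 V)) : Prop :=
  ∀ (x y : V) (p q r : G.Walk x y), p.IsPath → q.IsPath → (p.edges ++ q.edges).Perm L → r.IsPath →
    ¬ (wsum ℓ r < wsum ℓ p ∧ wsum ℓ r < wsum ℓ q)

theorem GeoL.perm {ℓ : Sym2 V → ℝ} {L L' : List (Sym2 V)} (h : GeoL G ℓ L) (hL : L.Perm L') :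
    GeoL G ℓ L' :=
  fun x y p q r hp hq hpq hr => h x y p q r hp hq (hpq.trans hL.symm) hr

variable {ℓ : Sym2 V → ℝ}

theorem wsum_nonneg (hℓ : ∀ e ∈ G.edgeSet, 0 < ℓ e) {u v : V} (p : G.Walk u v) :
    0 ≤ wsum ℓ p := by
  induction p with
  | nil => simp
  | cons h p ih =>
    rw [wsum_cons]
    have := hℓ _ (G.mem_edgeSet.2 h)
    linarith

theorem path_edge_aux {u w : V} (t : G.Walk w u) (ht : t.IsPath) (h : s(u, w) ∈ t.edges) :
    t.edges = [s(u, w)] := by
  cases t with
  | nil => simp at h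
  | @cons _ z _ h1 p1 =>
    rw [Walk.cons_isPath_iff] at ht
    rw [Walk.edges_cons, List.mem_cons] at h
    rcases h with h | h
    · have hz : z = u := by
        rw [Sym2.eq_swap, Sym2.congr_right] at h
        exact h.symm
      subst hz
      have : p1.Nil := Walk.isPath_iff_nil.1 ht.1
      rw [← Walk.eq_nil_iff_nil] at this
      subst this
      simp [Sym2.eq_swap]
    · exact absurd (p1.snd_mem_support_of_mem_edges h) ht.2

/-- Every walk can be replaced by a path with the same `φ`, or contains a cycle with `φ = 1`. -/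
theorem path_or_cycle [DecidableEq V] (hℓ : ∀ e ∈ G.edgeSet, 0 < ℓ e) (φ : Sym2 V → ZMod 2)
    {u v : V} (p : G.Walk u v) :
    (∃ p' : G.Walk u v, p'.IsPath ∧ wsum φ p' = wsum φ p ∧ wsum ℓ p' ≤ wsum ℓ p) ∨
    (∃ (z : V) (c : G.Walk z z), c.IsCycle ∧ wsum φ c = 1 ∧ wsum ℓ c ≤ wsum ℓ p) := by
  induction p with
  | nil => exact Or.inl ⟨Walk.nil, Walk.IsPath.nil, rfl, le_rfl⟩
  | @cons u w v h p ih =>
    have hpos := hℓ _ (G.mem_edgeSet.2 h)
    rcases ih with ⟨p', hp', h1, h2⟩ | ⟨z, c, h1, h2, h3⟩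
    · by_cases hu : u ∈ p'.support
      · have hsplit := p'.take_spec hu
        have hφ : wsum φ p' = wsum φ (p'.takeUntil u hu) + wsum φ (p'.dropUntil u hu) := by
          conv_lhs => rw [← hsplit]
          rw [wsum_append]
        have hl : wsum ℓ p' = wsum ℓ (p'.takeUntil u hu) + wsum ℓ (p'.dropUntil u hu) := by
          conv_lhs => rw [← hsplit]
          rw [wsum_append]
        have htp : (p'.takeUntil u hu).IsPath := hp'.takeUntil hu
        have hdp : (p'.dropUntil u hu).IsPath := hp'.dropUntil hu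
        have hn1 := wsum_nonneg hℓ (p'.takeUntil u hu)
        have hn2 := wsum_nonneg hℓ (p'.dropUntil u hu)
        by_cases hz : φ s(u, w) + wsum φ (p'.takeUntil u hu) = 0
        · refine Or.inl ⟨p'.dropUntil u hu, hdp, ?_, ?_⟩
          · rw [wsum_cons, ← h1, hφ, ← add_assoc, hz, zero_add]
          · rw [wsum_cons]; linarith
        · have hz1 : φ s(u, w) + wsum φ (p'.takeUntil u hu) = 1 := by
            revert hz
            generalize φ s(u, w) + wsum φ (p'.takeUntil u hu) = a
            revert a; decide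
          refine Or.inr ⟨u, Walk.cons h (p'.takeUntil u hu), ?_, ?_, ?_⟩
          · rw [Walk.cons_isCycle_iff]
            refine ⟨htp, fun hmem => hz ?_⟩
            have := path_edge_aux _ htp hmem
            have h4 : wsum φ (p'.takeUntil u hu) = φ s(u, w) := by
              simp [wsum, this]
            rw [h4]
            exact CharTwo.add_self_eq_zero _
          · rw [wsum_cons]; exact hz1
          · rw [wsum_cons, wsum_cons]; linarith
      · refine Or.inl ⟨Walk.cons h p', ?_, ?_, ?_⟩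
        · rw [Walk.cons_isPath_iff]; exact ⟨hp', hu⟩
        · rw [wsum_cons, wsum_cons, h1]
        · rw [wsum_cons, wsum_cons]; linarith
    · exact Or.inr ⟨z, c, h1, h2, by rw [wsum_cons]; linarith⟩

theorem cycle_of_closed [DecidableEq V] (hℓ : ∀ e ∈ G.edgeSet, 0 < ℓ e) (φ : Sym2 V → ZMod 2)
    {v : V} (W : G.Walk v v) (hW : wsum φ W = 1) :
    ∃ (z : V) (c : G.Walk z z), c.IsCycle ∧ wsum φ c = 1 ∧ wsum ℓ c ≤ wsum ℓ W := by
  rcases path_or_cycle hℓ φ W with ⟨p', hp', h1, h2⟩ | h
  · rw [Walk.isPath_iff_nil, ← Walk.eq_nil_iff_nil] at hp'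
    subst hp'
    rw [wsum_nil, hW] at h1
    exact absurd h1 (by decide)
  · exact h

/-- The main tool. -/
theorem exists_geo [Fintype V] [DecidableEq V] (hℓ : ∀ e ∈ G.edgeSet, 0 < ℓ e)
    (φ : Sym2 V → ZMod 2) {v : V} (W : G.Walk v v) (hW : wsum φ W = 1) :
    ∃ (z : V) (c : G.Walk z z), c.IsCycle ∧ GeoL G ℓ c.edges ∧ wsum φ c = 1 ∧
      wsum ℓ c ≤ wsum ℓ W := by
  obtain ⟨z0, c0, hc0, hφ0, hl0⟩ := cycle_of_closed hℓ φ W hW
  -- the finite set of lengths of cycles with `φ = 1`
  let A : Set ℝ := {x | ∃ (z : V) (c : G.Walk z z), c.IsCycle ∧ wsum φ c = 1 ∧ wsum ℓ c = x}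
  have hfin : A.Finite := by
    refine Set.Finite.subset
      (Set.toFinite (Set.range fun S : Finset (Sym2 V) => ∑ e ∈ S, ℓ e)) ?_
    rintro x ⟨z, c, hc, -, rfl⟩
    refine ⟨c.edges.toFinset, ?_⟩
    show ∑ e ∈ c.edges.toFinset, ℓ e = (c.edges.map ℓ).sum
    rw [List.sum_toFinset _ hc.edges_nodup]
  have hne : A.Nonempty := ⟨_, z0, c0, hc0, hφ0, rfl⟩
  obtain ⟨m, ⟨z, c, hc, hφ, hl⟩, hmin⟩ := Set.exists_min_image A id hfin hne
  refine ⟨z, c, hc, ?_, hφ, ?_⟩
  · intro x y p q r hp hq hpq hr ⟨h1, h2⟩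
    have hs : wsum φ p + wsum φ q = 1 := by
      rw [← hφ]
      have := (hpq.map φ).sum_eq
      simpa [wsum, List.map_append, List.sum_append] using this
    have hsl : wsum ℓ p + wsum ℓ q = wsum ℓ c := by
      have := (hpq.map ℓ).sum_eq
      simpa [wsum, List.map_append, List.sum_append] using this
    have key : ∀ s : G.Walk x y, wsum φ s + wsum φ r = 1 → wsum ℓ s + wsum ℓ r < wsum ℓ c →
        False := by
      intro s hs1 hs2
      obtain ⟨z', c', hc', hφ', hl'⟩ := cycle_of_closed hℓ φ (s.append r.reverse) (by simp [hs1])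
      have := hmin (wsum ℓ c') ⟨z', c', hc', hφ', rfl⟩
      simp only [id] at this
      simp only [wsum_append, wsum_reverse] at hl'
      linarith
    have hcase : wsum φ p + wsum φ r = 1 ∨ wsum φ q + wsum φ r = 1 := by
      revert hs
      generalize wsum φ p = a
      generalize wsum φ q = b
      generalize wsum φ r = d
      revert a b d; decide
    rcases hcase with h | h
    · exact key p h (by linarith)
    · exact key q h (by linarith)
  · have := hmin (wsum ℓ c0) ⟨z0, c0, hc0, hφ0, rfl⟩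
    simp only [id] at this
    linarith

/-- A walk is at least as long as a path with the same ends. -/
theorem exists_path_le [DecidableEq V] (hℓ : ∀ e ∈ G.edgeSet, 0 < ℓ e) {u v : V} (p : G.Walk u v) :
    ∃ p' : G.Walk u v, p'.IsPath ∧ wsum ℓ p' ≤ wsum ℓ p := by
  rcases path_or_cycle hℓ (fun _ => 0) p with ⟨p', hp', h1, h2⟩ | ⟨z, c, h1, h2, h3⟩
  · exact ⟨p', hp', h2⟩
  · simp [wsum] at h2

end Pool.Agent.R4.Geo
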