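import Mathlib
import Pool.Agent.R4.Geo.Basic

/-!
# The octahedron with two opposite faces stacked
-/

set_option autoImplicit false

namespace Pool.Agent.R4.Geo

open SimpleGraph

/-- Neighbours. -/
def nb : Fin 8 → Finset (Fin 8) :=
  ![{1, 2, 4, 5, 6}, {0, 2, 3, 5, 6}, {0, 1, 3, 4, 6}, {1, 2, 4, 5, 7}, {0, 2, 3, 5, 7},
    {0, 1, 3, 4, 7}, {0, 1, 2}, {3, 4, 5}]

/-- The octahedron on `0, …, 5` (with `i` and `i + 3` opposite), with a vertex `6` joined to `0, 1, 2` and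
a vertex `7` joined to `3, 4, 5`. -/
def OG : SimpleGraph (Fin 8) where
  Adj i j := j ∈ nb i
  symm := ⟨by decide⟩
  loopless := ⟨by decide⟩

instance : DecidableRel OG.Adj := fun i j => inferInstanceAs (Decidable (j ∈ nb i))

/-- Faces: first, second, third vertex. -/
def fa : Fin 12 → Fin 8 := ![0, 0, 0, 0, 0, 1, 1, 1, 2, 3, 3, 4]
/-- Second vertex. -/
def fb : Fin 12 → Fin 8 := ![1, 1, 2, 2, 4, 2, 2, 3, 3, 4, 5, 5]
/-- Third vertex. -/
def fc : Fin 12 → Fin 8 := ![5, 6, 4, 6, 5, 3, 6, 5, 4, 7, 7, 7]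

/-- Edges of a face. -/
def FL (i : Fin 12) : List (Sym2 (Fin 8)) := [s(fa i, fb i), s(fb i, fc i), s(fc i, fa i)]

/-- Vertices of a face. -/
def FV (i : Fin 12) : Finset (Fin 8) := {fa i, fb i, fc i}

/-- Dual paths from face `0`. -/
def th : Fin 12 → List (Sym2 (Fin 8)) :=
  ![[], [s(0, 1)], [s(0, 5), s(0, 4)], [s(0, 1), s(0, 6)], [s(0, 5)], [s(1, 5), s(1, 3)],
    [s(0, 1), s(1, 6)], [s(1, 5)], [s(0, 5), s(0, 4), s(2, 4)], [s(0, 5), s(4, 5), s(4, 7)],
    [s(1, 5), s(3, 5)], [s(0, 5), s(4, 5)]]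

/-- The functional. -/
def ps (i : Fin 12) (e : Sym2 (Fin 8)) : ZMod 2 := if e ∈ th i then 1 else 0

theorem ps_face : ∀ k i : Fin 12, ((FL k).map (ps i)).sum =
    (if k = i then 1 else 0) + (if k = 0 then 1 else 0) := by decide

/-- The functional separating the faces `i` and `j`. -/
def ph (i j : Fin 12) (e : Sym2 (Fin 8)) : ZMod 2 := ps i e + ps j e

theorem ph_face (i j k : Fin 12) : ((FL k).map (ph i j)).sum =
    (if k = i then 1 else 0) + (if k = j then 1 else 0) := by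
  have : ((FL k).map (ph i j)).sum = ((FL k).map (ps i)).sum + ((FL k).map (ps j)).sum := by
    simp only [FL, ph, List.map_cons, List.map_nil, List.sum_cons, List.sum_nil]
    ring
  rw [this, ps_face, ps_face]
  have h2 : ∀ a b c : ZMod 2, a + b + (c + b) = a + c := by decide
  exact h2 _ _ _

theorem ph_face_eq_one {i j k : Fin 12} (h : ((FL k).map (ph i j)).sum = 1) : k = i ∨ k = j := by
  rw [ph_face] at h
  by_contra hk
  push Not at hk
  rw [if_neg hk.1, if_neg hk.2] at h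
  exact absurd h (by decide)

theorem sets : ∀ S : Finset (Fin 8), S.Nonempty → (∀ v ∈ S, (nb v ∩ S).card = 2) →
    (∃ i, S = FV i) ∨ S = {0, 1, 2} ∨ S = {3, 4, 5} ∨ S = {0, 1, 3, 4} ∨ S = {0, 2, 3, 5} ∨
      S = {1, 2, 4, 5} := by decide +kernel

theorem face_inner : ∀ i : Fin 12, ∀ a ∈ FV i, ∀ b ∈ FV i, OG.Adj a b → s(a, b) ∈ FL i := by decide

theorem face_adj : ∀ i : Fin 12, OG.Adj (fa i) (fb i) ∧ OG.Adj (fb i) (fc i) ∧
    OG.Adj (fc i) (fa i) := by decide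

theorem FL_nodup : ∀ i : Fin 12, (FL i).Nodup := by decide

/-- A set closed under adjacency in a preconnected graph. -/
theorem closed_preconn {T : Set (Fin 8)} (h : (OG.induce T).Preconnected) (A : Finset (Fin 8))
    (a b : Fin 8) (ha : a ∈ T) (hb : b ∈ T) (haA : a ∈ A) (hbA : b ∉ A)
    (hcl : ∀ u ∈ A, ∀ v, v ∈ T → OG.Adj u v → v ∈ A) : False := by
  obtain ⟨p⟩ := h ⟨a, ha⟩ ⟨b, hb⟩
  have key : ∀ (x y : T) (p : (OG.induce T).Walk x y), (x : Fin 8) ∈ A → (y : Fin 8) ∈ A := by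
    intro x y p
    induction p with
    | nil => exact id
    | @cons u v w h p ih =>
      intro hu
      exact ih (hcl u hu v v.2 h)
  exact hbA (key _ _ p haA)

/-- The peripheral cycles are the faces. -/
theorem peri {z : Fin 8} (c : OG.Walk z z) (hc : c.IsCycle)
    (hch : ∀ x ∈ c.support, ∀ y ∈ c.support, OG.Adj x y → s(x, y) ∈ c.edges)
    (hcon : (OG.induce {x | x ∉ c.support}).Preconnected) :
    ∃ i, c.edges.Perm (FL i) := by
  have hmem : ∀ x, x ∈ c.support.toFinset ↔ x ∈ c.support := fun x => List.mem_toFinset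
  have hreg : ∀ v ∈ c.support.toFinset, (nb v ∩ c.support.toFinset).card = 2 := by
    intro v hv
    rw [hmem] at hv
    have h1 := hc.ncard_neighborSet_toSubgraph_eq_two hv
    have h2 : c.toSubgraph.neighborSet v = ↑(nb v ∩ c.support.toFinset) := by
      ext u
      rw [Subgraph.mem_neighborSet, ← Subgraph.mem_edgeSet, Walk.mem_edges_toSubgraph,
        Finset.coe_inter, Set.mem_inter_iff, Finset.mem_coe, Finset.mem_coe, hmem]
      constructor
      · intro h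
        exact ⟨c.adj_of_mem_edges h, c.snd_mem_support_of_mem_edges h⟩
      · rintro ⟨h3, h4⟩
        exact hch v hv u h4 h3
    rw [h2, Set.ncard_coe_finset] at h1
    exact h1
  have hne : c.support.toFinset.Nonempty := ⟨z, (hmem z).2 c.start_mem_support⟩
  have hT : ∀ x, x ∈ {x | x ∉ c.support} ↔ x ∉ c.support.toFinset := fun x => by
    rw [hmem]; rfl
  rcases sets _ hne hreg with ⟨i, hi⟩ | hi | hi | hi | hi | hi
  · refine ⟨i, ?_⟩
    apply List.perm_of_nodup_nodup_toFinset_eq hc.edges_nodup (FL_nodup i)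
    ext e
    rw [List.mem_toFinset, List.mem_toFinset]
    constructor
    · induction e using Sym2.ind with
      | _ a b =>
        intro he
        refine face_inner i a ?_ b ?_ (c.adj_of_mem_edges he)
        · rw [← hi, hmem]; exact c.fst_mem_support_of_mem_edges he
        · rw [← hi, hmem]; exact c.snd_mem_support_of_mem_edges he
    · intro he
      have hin : ∀ x ∈ FV i, x ∈ c.support := fun x hx => by
        rw [← hmem, hi]; exact hx
      have ha : fa i ∈ c.support := hin _ (by simp [FV])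
      have hb : fb i ∈ c.support := hin _ (by simp [FV])
      have hcc : fc i ∈ c.support := hin _ (by simp [FV])
      have h3 := face_adj i
      simp only [FL, List.mem_cons, List.not_mem_nil, or_false] at he
      rcases he with rfl | rfl | rfl
      · exact hch _ ha _ hb h3.1
      · exact hch _ hb _ hcc h3.2.1
      · exact hch _ hcc _ ha h3.2.2
  · exfalso
    refine closed_preconn hcon {6} 6 7 ?_ ?_ (by decide) (by decide) ?_
    · rw [hT, hi]; decide
    · rw [hT, hi]; decide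
    · simp only [hT, hi]; decide
  · exfalso
    refine closed_preconn hcon {7} 7 6 ?_ ?_ (by decide) (by decide) ?_
    · rw [hT, hi]; decide
    · rw [hT, hi]; decide
    · simp only [hT, hi]; decide
  · exfalso
    refine closed_preconn hcon {2, 6} 2 5 ?_ ?_ (by decide) (by decide) ?_
    · rw [hT, hi]; decide
    · rw [hT, hi]; decide
    · simp only [hT, hi]; decide
  · exfalso
    refine closed_preconn hcon {1, 6} 1 4 ?_ ?_ (by decide) (by decide) ?_
    · rw [hT, hi]; decide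
    · rw [hT, hi]; decide
    · simp only [hT, hi]; decide
  · exfalso
    refine closed_preconn hcon {0, 6} 0 3 ?_ ?_ (by decide) (by decide) ?_
    · rw [hT, hi]; decide
    · rw [hT, hi]; decide
    · simp only [hT, hi]; decide

/-! ### Rhombi -/

/-- First end of the shared edge; indices `0, 1, 2` are the edges of the triangle `0, 1, 2` and
`3, 4, 5` those of `3, 4, 5`. -/
def rx : Fin 6 → Fin 8 := ![0, 1, 2, 3, 4, 5]
/-- Second end. -/
def ry : Fin 6 → Fin 8 := ![1, 2, 0, 4, 5, 3]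
/-- Opposite vertex (the stacked one). -/
def rw' : Fin 6 → Fin 8 := ![6, 6, 6, 7, 7, 7]
/-- The other opposite vertex. -/
def ru : Fin 6 → Fin 8 := ![5, 3, 4, 2, 0, 1]
/-- Face with the first opposite vertex. -/
def ri : Fin 6 → Fin 12 := ![1, 6, 3, 9, 11, 10]
/-- Face with the second opposite vertex. -/
def rj : Fin 6 → Fin 12 := ![0, 5, 2, 8, 4, 7]

theorem r_adj : ∀ a : Fin 6, OG.Adj (rx a) (ry a) ∧ OG.Adj (rx a) (rw' a) ∧ OG.Adj (rw' a) (ry a) ∧
    OG.Adj (rx a) (ru a) ∧ OG.Adj (ru a) (ry a) := by decide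

theorem r_perm_i : ∀ a : Fin 6,
    (FL (ri a)).Perm [s(rx a, ry a), s(rx a, rw' a), s(rw' a, ry a)] := by decide

theorem r_perm_j : ∀ a : Fin 6,
    (FL (rj a)).Perm [s(rx a, ry a), s(rx a, ru a), s(ru a, ry a)] := by decide

theorem r_ne : ∀ a : Fin 6, ri a ≠ rj a := by decide

theorem r_ne2 : ∀ a b : Fin 6, a < 3 → 3 ≤ b → ri a ≠ ri b ∧ ri a ≠ rj b ∧ rj a ≠ ri b ∧
    rj a ≠ rj b := by decide

variable {ℓ : Sym2 (Fin 8) → ℝ}

/-- Length of a face. -/
noncomputable def fl (ℓ : Sym2 (Fin 8) → ℝ) (i : Fin 12) : ℝ := ((FL i).map ℓ).sum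

theorem tool (hℓ : ∀ e ∈ OG.edgeSet, 0 < ℓ e)
    (H : ∀ (z : Fin 8) (c : OG.Walk z z), c.IsCycle → GeoL OG ℓ c.edges →
      ∃ i, c.edges.Perm (FL i))
    {i j : Fin 12} {v : Fin 8} (W : OG.Walk v v) (hW : wsum (ph i j) W = 1) :
    ∃ k, (k = i ∨ k = j) ∧ GeoL OG ℓ (FL k) ∧ fl ℓ k ≤ wsum ℓ W := by
  obtain ⟨z, c, hc, hg, hφ, hl⟩ := exists_geo hℓ (ph i j) W hW
  obtain ⟨k, hk⟩ := H z c hc hg
  refine ⟨k, ph_face_eq_one ?_, hg.perm hk, ?_⟩
  · rw [← hφ, ← (hk.map _).sum_eq]; rfl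
  · have : fl ℓ k = wsum ℓ c := by
      rw [fl, ← (hk.map _).sum_eq]; rfl
    rw [this]; exact hl

/-- At most one face is not geodesic. -/
theorem two_faces (hℓ : ∀ e ∈ OG.edgeSet, 0 < ℓ e)
    (H : ∀ (z : Fin 8) (c : OG.Walk z z), c.IsCycle → GeoL OG ℓ c.edges →
      ∃ i, c.edges.Perm (FL i)) {i j : Fin 12} (hij : i ≠ j) :
    GeoL OG ℓ (FL i) ∨ GeoL OG ℓ (FL j) := by
  obtain ⟨h1, h2, h3⟩ := face_adj i
  have hW : wsum (ph i j) (Walk.cons h1 (Walk.cons h2 (Walk.cons h3 Walk.nil))) = 1 := by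
    have h4 := ph_face i j i
    rw [if_pos rfl, if_neg hij] at h4
    simpa [FL, wsum] using h4
  obtain ⟨k, hk | hk, h5, -⟩ := tool hℓ H _ hW
  · left; rwa [hk] at h5
  · right; rwa [hk] at h5

/-- A long edge. -/
def Long (ℓ : Sym2 (Fin 8) → ℝ) (x y : Fin 8) : Prop :=
  ∃ r : OG.Walk x y, r.IsPath ∧ wsum ℓ r < ℓ s(x, y)

theorem Long.symm {x y : Fin 8} (h : Long ℓ x y) : Long ℓ y x := by
  obtain ⟨r, h1, h2⟩ := h
  exact ⟨r.reverse, h1.reverse, by rw [wsum_reverse, Sym2.eq_swap]; exact h2⟩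

/-- In a geodesic triangle with a long edge `x y`, the other two edges form a shortest path. -/
theorem geo_long {x y w : Fin 8} (hxy : OG.Adj x y) (hxw : OG.Adj x w) (hwy : OG.Adj w y)
    (hg : GeoL OG ℓ [s(x, y), s(x, w), s(w, y)]) (hL : Long ℓ x y) :
    ℓ s(x, w) + ℓ s(w, y) < ℓ s(x, y) ∧
      ∀ r : OG.Walk x y, r.IsPath → ℓ s(x, w) + ℓ s(w, y) ≤ wsum ℓ r := by
  have hp : (Walk.cons hxy Walk.nil : OG.Walk x y).IsPath := by
    rw [Walk.cons_isPath_iff]
    exact ⟨Walk.IsPath.nil, by simpa using hxy.ne⟩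
  have hq : (Walk.cons hxw (Walk.cons hwy Walk.nil) : OG.Walk x y).IsPath := by
    rw [Walk.cons_isPath_iff, Walk.cons_isPath_iff]
    refine ⟨⟨Walk.IsPath.nil, by simpa using hwy.ne⟩, ?_⟩
    simp only [Walk.support_cons, Walk.support_nil, List.mem_cons, List.not_mem_nil, or_false,
      not_or]
    exact ⟨hxw.ne, hxy.ne⟩
  have key : ∀ r : OG.Walk x y, r.IsPath →
      ¬ (wsum ℓ r < ℓ s(x, y) ∧ wsum ℓ r < ℓ s(x, w) + ℓ s(w, y)) := by
    intro r hr
    have := hg x y _ _ r hp hq (by simp) hr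
    simpa using this
  obtain ⟨r0, hr0, hl0⟩ := hL
  have h0 : ℓ s(x, w) + ℓ s(w, y) ≤ wsum ℓ r0 := by
    by_contra hcon
    push Not at hcon
    exact key r0 hr0 ⟨hl0, hcon⟩
  refine ⟨by linarith, fun r hr => ?_⟩
  by_contra hcon
  push Not at hcon
  exact key r hr ⟨by linarith, hcon⟩

/-- The key lemma. -/
theorem rhombus (hℓ : ∀ e ∈ OG.edgeSet, 0 < ℓ e)
    (H : ∀ (z : Fin 8) (c : OG.Walk z z), c.IsCycle → GeoL OG ℓ c.edges →
      ∃ i, c.edges.Perm (FL i))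
    (a : Fin 6) (hL : Long ℓ (rx a) (ry a)) (hi : GeoL OG ℓ (FL (ri a)))
    (hj : GeoL OG ℓ (FL (rj a))) :
    ∃ D : ℝ, D < fl ℓ (ri a) ∧ D < fl ℓ (rj a) ∧
      ∀ k, k ≠ ri a → k ≠ rj a → GeoL OG ℓ (FL k) ∧ fl ℓ k ≤ D := by
  obtain ⟨h1, h2, h3, h4, h5⟩ := r_adj a
  have pi := r_perm_i a
  have pj := r_perm_j a
  obtain ⟨hi1, hi2⟩ := geo_long h1 h2 h3 (hi.perm pi) hL
  obtain ⟨hj1, hj2⟩ := geo_long h1 h4 h5 (hj.perm pj) hL
  have hp : ∀ w : Fin 8, ∀ (hxw : OG.Adj (rx a) w) (hwy : OG.Adj w (ry a)),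
      (Walk.cons hxw (Walk.cons hwy Walk.nil) : OG.Walk (rx a) (ry a)).IsPath := by
    intro w hxw hwy
    rw [Walk.cons_isPath_iff, Walk.cons_isPath_iff]
    refine ⟨⟨Walk.IsPath.nil, by simpa using hwy.ne⟩, ?_⟩
    simp only [Walk.support_cons, Walk.support_nil, List.mem_cons, List.not_mem_nil, or_false,
      not_or]
    exact ⟨hxw.ne, h1.ne⟩
  have e1 : ℓ s(rx a, rw' a) + ℓ s(rw' a, ry a) = ℓ s(rx a, ru a) + ℓ s(ru a, ry a) := by
    apply le_antisymm
    · have := hi2 _ (hp _ h4 h5)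
      simpa using this
    · have := hj2 _ (hp _ h2 h3)
      simpa using this
  have fi : fl ℓ (ri a) = ℓ s(rx a, ry a) + (ℓ s(rx a, rw' a) + ℓ s(rw' a, ry a)) := by
    rw [fl, (pi.map ℓ).sum_eq]; simp
  have fj : fl ℓ (rj a) = ℓ s(rx a, ry a) + (ℓ s(rx a, ru a) + ℓ s(ru a, ry a)) := by
    rw [fl, (pj.map ℓ).sum_eq]; simp
  refine ⟨2 * (ℓ s(rx a, rw' a) + ℓ s(rw' a, ry a)), by linarith, by linarith, ?_⟩
  intro k hk1 hk2
  -- the closed walk `x w y u x`
  let W : OG.Walk (rx a) (rx a) :=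
    Walk.cons h2 (Walk.cons h3 (Walk.cons h5.symm (Walk.cons h4.symm Walk.nil)))
  have hWl : wsum ℓ W = 2 * (ℓ s(rx a, rw' a) + ℓ s(rw' a, ry a)) := by
    have : wsum ℓ W = ℓ s(rx a, rw' a) + (ℓ s(rw' a, ry a) + (ℓ s(ry a, ru a) +
        (ℓ s(ru a, rx a) + 0))) := by simp [W]
    rw [this, Sym2.eq_swap (a := ry a) (b := ru a), Sym2.eq_swap (a := ru a) (b := rx a)]
    linarith
  have hWφ : wsum (ph (ri a) k) W = 1 := by
    have g1 := ph_face (ri a) k (ri a)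
    have g2 := ph_face (ri a) k (rj a)
    rw [(pi.map _).sum_eq] at g1
    rw [(pj.map _).sum_eq] at g2
    rw [if_pos rfl, if_neg (Ne.symm hk1)] at g1
    rw [if_neg (r_ne a).symm, if_neg (Ne.symm hk2)] at g2
    have : wsum (ph (ri a) k) W = ph (ri a) k s(rx a, rw' a) + (ph (ri a) k s(rw' a, ry a) +
        (ph (ri a) k s(ry a, ru a) + (ph (ri a) k s(ru a, rx a) + 0))) := by simp [W]
    rw [this, Sym2.eq_swap (a := ry a) (b := ru a), Sym2.eq_swap (a := ru a) (b := rx a)]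
    simp only [List.map_cons, List.map_nil, List.sum_cons, List.sum_nil] at g1 g2
    revert g1 g2
    generalize ph (ri a) k s(rx a, ry a) = a1
    generalize ph (ri a) k s(rx a, rw' a) = a2
    generalize ph (ri a) k s(rw' a, ry a) = a3
    generalize ph (ri a) k s(rx a, ru a) = a4
    generalize ph (ri a) k s(ru a, ry a) = a5
    revert a1 a2 a3 a4 a5
    decide
  obtain ⟨m, hm | hm, h6, h7⟩ := tool hℓ H W hWφ
  · exfalso
    rw [hm, fi, hWl] at h7
    linarith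
  · rw [hm, hWl] at h7
    rw [hm] at h6
    exact ⟨h6, h7⟩

/-- A triangle that is not geodesic has a long edge. -/
theorem long_of_not_geo (hℓ : ∀ e ∈ OG.edgeSet, 0 < ℓ e) {L : List (Sym2 (Fin 8))}
    (hL : L.length = 3) (h : ¬ GeoL OG ℓ L) :
    ∃ x y, s(x, y) ∈ L ∧ Long ℓ x y := by
  unfold GeoL at h
  push Not at h
  obtain ⟨x, y, p, q, r, hp, hq, hpq, hr, h1, h2⟩ := h
  have hlen : p.length + q.length = 3 := by
    have := hpq.length_eq
    rw [List.length_append, Walk.length_edges, Walk.length_edges, hL] at this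
    exact this
  have key : ∀ s : OG.Walk x y, s.length ≤ 1 → wsum ℓ r < wsum ℓ s → (∀ e ∈ s.edges, e ∈ L) →
      ∃ x y, s(x, y) ∈ L ∧ Long ℓ x y := by
    intro s hs1 hs2 hs3
    cases s with
    | nil =>
      rw [wsum_nil] at hs2
      have := wsum_nonneg hℓ r
      linarith
    | @cons _ z _ h3 t =>
      cases t with
      | nil =>
        refine ⟨x, y, hs3 _ (by simp), r, hr, ?_⟩
        simpa using hs2
      | cons h4 t' =>
        simp only [Walk.length_cons] at hs1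
        omega
  rcases Nat.lt_or_ge 1 p.length with h3 | h3
  · exact key q (by omega) h2 (fun e he => hpq.subset (by simp [he]))
  · exact key p h3 h1 (fun e he => hpq.subset (by simp [he]))

theorem tri1 : ∀ x y : Fin 8, s(x, y) ∈ [s((0 : Fin 8), 1), s(1, 2), s(2, 0)] →
    ∃ a : Fin 6, a < 3 ∧ ((x = rx a ∧ y = ry a) ∨ (x = ry a ∧ y = rx a)) := by decide

theorem tri2 : ∀ x y : Fin 8, s(x, y) ∈ [s((3 : Fin 8), 4), s(4, 5), s(5, 3)] →
    ∃ a : Fin 6, 3 ≤ a ∧ ((x = rx a ∧ y = ry a) ∨ (x = ry a ∧ y = rx a)) := by decide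

/-- For every length assignment some geodesic cycle is not (the edge set of) a face, or one of the two
separating triangles is geodesic. -/
theorem main (hℓ : ∀ e ∈ OG.edgeSet, 0 < ℓ e)
    (H : ∀ (z : Fin 8) (c : OG.Walk z z), c.IsCycle → GeoL OG ℓ c.edges →
      ∃ i, c.edges.Perm (FL i))
    (hT1 : ¬ GeoL OG ℓ [s((0 : Fin 8), 1), s(1, 2), s(2, 0)])
    (hT2 : ¬ GeoL OG ℓ [s((3 : Fin 8), 4), s(4, 5), s(5, 3)]) : False := by
  obtain ⟨x1, y1, hm1, hL1⟩ := long_of_not_geo hℓ rfl hT1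
  obtain ⟨x2, y2, hm2, hL2⟩ := long_of_not_geo hℓ rfl hT2
  obtain ⟨a, ha, hxa⟩ := tri1 x1 y1 hm1
  obtain ⟨b, hb, hxb⟩ := tri2 x2 y2 hm2
  have hLa : Long ℓ (rx a) (ry a) := by
    rcases hxa with ⟨rfl, rfl⟩ | ⟨rfl, rfl⟩
    · exact hL1
    · exact hL1.symm
  have hLb : Long ℓ (rx b) (ry b) := by
    rcases hxb with ⟨rfl, rfl⟩ | ⟨rfl, rfl⟩
    · exact hL2
    · exact hL2.symm
  obtain ⟨n1, n2, n3, n4⟩ := r_ne2 a b ha hb
  -- if both faces at both long edges are geodesic, we are done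
  have fin : GeoL OG ℓ (FL (ri a)) → GeoL OG ℓ (FL (rj a)) → GeoL OG ℓ (FL (ri b)) →
      GeoL OG ℓ (FL (rj b)) → False := by
    intro g1 g2 g3 g4
    obtain ⟨D1, d1, -, k1⟩ := rhombus hℓ H a hLa g1 g2
    obtain ⟨D2, d2, -, k2⟩ := rhombus hℓ H b hLb g3 g4
    have := (k1 (ri b) n1.symm n3.symm).2
    have := (k2 (ri a) n1 n2).2
    linarith
  by_cases ga : GeoL OG ℓ (FL (ri a)) ∧ GeoL OG ℓ (FL (rj a))
  · obtain ⟨D1, -, -, k1⟩ := rhombus hℓ H a hLa ga.1 ga.2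
    exact fin ga.1 ga.2 (k1 _ n1.symm n3.symm).1 (k1 _ n2.symm n4.symm).1
  · have gb : GeoL OG ℓ (FL (ri b)) ∧ GeoL OG ℓ (FL (rj b)) := by
      rw [not_and_or] at ga
      rcases ga with ga | ga
      · exact ⟨(two_faces hℓ H n1).resolve_left ga, (two_faces hℓ H n2).resolve_left ga⟩
      · exact ⟨(two_faces hℓ H n3).resolve_left ga, (two_faces hℓ H n4).resolve_left ga⟩
    obtain ⟨D2, -, -, k2⟩ := rhombus hℓ H b hLb gb.1 gb.2
    exact fin (k2 _ n1 n2).1 (k2 _ n3 n4).1 gb.1 gb.2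

end Pool.Agent.R4.Geo
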